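import Mathlib

/-!
# Colour preserving automorphisms of ranked saturated linear orders

A back and forth construction along the tree of a ranked order: all gaps of a partial isomorphism
are treated simultaneously, so that no enumeration of the order is needed.
-/

set_option autoImplicit false
set_option linter.unusedSectionVars false

open Cardinal Set

namespace Pool.Agent.R795.ML

variable {L W C : Type} [LinearOrder L] [LinearOrder W] [WellFoundedLT W]

/-- Strict order in both coordinates. -/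
def LL (a b : L × L) : Prop := a.1 < b.1 ∧ a.2 < b.2

/-- A position: pairs below and pairs above. -/
abbrev Pos (L : Type) := Set (L × L) × Set (L × L)

/-- The position at stage `α` for the target `t`. -/
noncomputable def pos (M : Pos L → Set (L × L)) (t : L × L → Ordering) : W → Pos L :=
  (wellFounded_lt (α := W)).fix fun α ih =>
    ({q | ∃ β, ∃ h : β < α, q ∈ M (ih β h) ∧ t q = Ordering.lt},
      {q | ∃ β, ∃ h : β < α, q ∈ M (ih β h) ∧ t q = Ordering.gt})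

theorem pos_eq (M : Pos L → Set (L × L)) (t : L × L → Ordering) (α : W) :
    pos M t α = ({q | ∃ β, ∃ _ : β < α, q ∈ M (pos M t β) ∧ t q = Ordering.lt},
      {q | ∃ β, ∃ _ : β < α, q ∈ M (pos M t β) ∧ t q = Ordering.gt}) := by
  unfold pos
  rw [WellFounded.fix_eq]

theorem mem_lo {M : Pos L → Set (L × L)} {t : L × L → Ordering} {α : W} {q : L × L} :
    q ∈ (pos M t α).1 ↔ ∃ β, β < α ∧ q ∈ M (pos M t β) ∧ t q = Ordering.lt := by
  rw [pos_eq]
  simp only [mem_ofPred_eq, exists_prop]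

theorem mem_hi {M : Pos L → Set (L × L)} {t : L × L → Ordering} {α : W} {q : L × L} :
    q ∈ (pos M t α).2 ↔ ∃ β, β < α ∧ q ∈ M (pos M t β) ∧ t q = Ordering.gt := by
  rw [pos_eq]
  simp only [mem_ofPred_eq, exists_prop]

theorem agree {M : Pos L → Set (L × L)} {t t' : L × L → Ordering} (α : W)
    (h : ∀ β, β < α → ∀ q ∈ M (pos M t β), t q = t' q) : pos M t α = pos M t' α := by
  induction α using WellFoundedLT.induction with
  | ind α ih =>
    have h1 : ∀ β, β < α → pos M t β = pos M t' β := fun β hβ =>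
      ih β hβ fun γ hγ => h γ (hγ.trans hβ)
    refine Prod.ext ?_ ?_
    · ext q
      rw [mem_lo, mem_lo]
      constructor
      · rintro ⟨β, hβ, hq, ht⟩
        exact ⟨β, hβ, by rw [← h1 β hβ]; exact hq, by rw [← h β hβ q hq]; exact ht⟩
      · rintro ⟨β, hβ, hq, ht⟩
        rw [← h1 β hβ] at hq
        exact ⟨β, hβ, hq, by rw [h β hβ q hq]; exact ht⟩
    · ext q
      rw [mem_hi, mem_hi]
      constructor
      · rintro ⟨β, hβ, hq, ht⟩
        exact ⟨β, hβ, by rw [← h1 β hβ]; exact hq, by rw [← h β hβ q hq]; exact ht⟩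
      · rintro ⟨β, hβ, hq, ht⟩
        rw [← h1 β hβ] at hq
        exact ⟨β, hβ, hq, by rw [h β hβ q hq]; exact ht⟩

/-- Consistent small positions. -/
def Good (κ : Cardinal.{0}) (p : Pos L) : Prop :=
  (∀ a ∈ p.1, ∀ b ∈ p.2, LL a b) ∧ #p.1 < κ ∧ #p.2 < κ

/-- The requirements on the set of pairs added at a position. -/
structure Spec (ρ : L → W) (f : L → C) (p : Pos L) (S : Set (L × L)) : Prop where
  fin : S.Finite
  gapL : ∀ q ∈ S, ∀ a ∈ p.1, LL a q
  gapR : ∀ q ∈ S, ∀ b ∈ p.2, LL q b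
  cmp : ∀ q ∈ S, ∀ r ∈ S, q = r ∨ LL q r ∨ LL r q
  col : ∀ q ∈ S, f q.1 = f q.2
  s1 : ∃ m ∈ S, m.1 ≠ m.2 ∧ ∀ y, (∀ a ∈ p.1, a.1 < y) → (∀ b ∈ p.2, y < b.1) → ρ m.1 ≤ ρ y
  s2 : ∃ m ∈ S, ∀ y, (∀ a ∈ p.1, a.2 < y) → (∀ b ∈ p.2, y < b.2) → ρ m.2 ≤ ρ y

section Generic

variable {κ : Cardinal.{0}} {ρ : L → W} {f : L → C} {M : Pos L → Set (L × L)}

theorem good_pos (hκ : ℵ₀ < κ) (hW : ∀ w : W, #(Iio w) < κ)
    (hM : ∀ p, Good κ p → Spec ρ f p (M p)) {t : L × L → Ordering}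
    (ht : ∀ a b, LL b a → t a = Ordering.lt → t b = Ordering.lt) (α : W) :
    Good κ (pos M t α) := by
  induction α using WellFoundedLT.induction with
  | ind α ih =>
    have hcard : #(⋃ β : Iio α, M (pos M t (β : W)) : Set (L × L)) < κ := by
      refine (mk_iUnion_le_sum_mk).trans_lt ?_
      have h1 : Cardinal.sum (fun β : Iio α => #(M (pos M t (β : W)))) ≤
          Cardinal.sum (fun _ : Iio α => ℵ₀) := by
        refine Cardinal.sum_le_sum _ _ fun β => ?_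
        exact (lt_aleph0_iff_set_finite.mpr (hM _ (ih β.1 β.2)).fin).le
      refine h1.trans_lt ?_
      rw [Cardinal.sum_const']
      exact mul_lt_of_lt hκ.le (hW α) hκ
    refine ⟨?_, ?_, ?_⟩
    · intro a ha b hb
      rw [mem_lo] at ha
      rw [mem_hi] at hb
      obtain ⟨β, hβ, haM, hta⟩ := ha
      obtain ⟨γ, hγ, hbM, htb⟩ := hb
      rcases lt_trichotomy β γ with h | h | h
      · exact (hM _ (ih γ hγ)).gapL b hbM a (mem_lo.mpr ⟨β, h, haM, hta⟩)
      · subst h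
        rcases (hM _ (ih β hβ)).cmp a haM b hbM with h1 | h1 | h1
        · subst h1
          rw [hta] at htb
          exact absurd htb (by decide)
        · exact h1
        · rw [ht a b h1 hta] at htb
          exact absurd htb (by decide)
      · exact (hM _ (ih β hβ)).gapR a haM b (mem_hi.mpr ⟨γ, h, hbM, htb⟩)
    · refine (mk_le_mk_of_subset ?_).trans_lt hcard
      intro q hq
      obtain ⟨β, hβ, hqM, _⟩ := mem_lo.mp hq
      exact mem_iUnion.mpr ⟨⟨β, hβ⟩, hqM⟩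
    · refine (mk_le_mk_of_subset ?_).trans_lt hcard
      intro q hq
      obtain ⟨β, hβ, hqM, _⟩ := mem_hi.mp hq
      exact mem_iUnion.mpr ⟨⟨β, hβ⟩, hqM⟩

variable (hκ : ℵ₀ < κ) (hW : ∀ w : W, #(Iio w) < κ)
  (hM : ∀ p, Good κ p → Spec ρ f p (M p))
  (hρ : ∀ x y : L, x < y → ρ x = ρ y → ∃ z, x < z ∧ z < y ∧ ρ z < ρ x)

/-- The target function of a point for a projection. -/
noncomputable def tg (π : L × L → L) (x : L) (q : L × L) : Ordering := compare (π q) x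

theorem tg_lt {π : L × L → L} {x : L} {q : L × L} : tg π x q = Ordering.lt ↔ π q < x :=
  compare_lt_iff_lt

theorem tg_gt {π : L × L → L} {x : L} {q : L × L} : tg π x q = Ordering.gt ↔ x < π q :=
  compare_gt_iff_gt

theorem tg_mono {π : L × L → L} (hπ : ∀ a b, LL a b → π a < π b) (x : L) :
    ∀ a b, LL b a → tg π x a = Ordering.lt → tg π x b = Ordering.lt := by
  intro a b hab ha
  rw [tg_lt] at ha ⊢
  exact (hπ _ _ hab).trans ha

include hκ hW hM hρ

theorem rank_lemma {π : L × L → L} (hπ : ∀ a b, LL a b → π a < π b)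
    (hs : ∀ p, Good κ p → ∃ m ∈ M p,
      ∀ y, (∀ a ∈ p.1, π a < y) → (∀ b ∈ p.2, y < π b) → ρ (π m) ≤ ρ y) (x : L) (α : W)
    (hun : ∀ β, β < α → ∀ q ∈ M (pos M (tg π x) β), π q ≠ x) (y : L)
    (hy1 : ∀ a ∈ (pos M (tg π x) α).1, π a < y) (hy2 : ∀ b ∈ (pos M (tg π x) α).2, y < π b) :
    α ≤ ρ y := by
  induction α using WellFoundedLT.induction generalizing y with
  | ind α ih =>
    refine le_of_forall_lt fun β hβ => ?_
    have hg := good_pos hκ hW hM (tg_mono hπ x) β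
    obtain ⟨m, hm, hmin⟩ := hs _ hg
    have hyβ1 : ∀ a ∈ (pos M (tg π x) β).1, π a < y := by
      intro a ha
      obtain ⟨γ, hγ, h1, h2⟩ := mem_lo.mp ha
      exact hy1 a (mem_lo.mpr ⟨γ, hγ.trans hβ, h1, h2⟩)
    have hyβ2 : ∀ b ∈ (pos M (tg π x) β).2, y < π b := by
      intro b hb
      obtain ⟨γ, hγ, h1, h2⟩ := mem_hi.mp hb
      exact hy2 b (mem_hi.mpr ⟨γ, hγ.trans hβ, h1, h2⟩)
    have hmβ1 : ∀ a ∈ (pos M (tg π x) β).1, π a < π m := fun a ha =>
      hπ _ _ ((hM _ hg).gapL m hm a ha)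
    have hmβ2 : ∀ b ∈ (pos M (tg π x) β).2, π m < π b := fun b hb =>
      hπ _ _ ((hM _ hg).gapR m hm b hb)
    have h1 : β ≤ ρ (π m) := ih β hβ (fun γ hγ => hun γ (hγ.trans hβ)) (π m) hmβ1 hmβ2
    have h2 : ρ (π m) ≤ ρ y := hmin y hyβ1 hyβ2
    have hne : π m ≠ y := by
      rcases lt_trichotomy (π m) x with h | h | h
      · exact (hy1 m (mem_lo.mpr ⟨β, hβ, hm, tg_lt.mpr h⟩)).ne
      · exact absurd h (hun β hβ m hm)
      · exact (hy2 m (mem_hi.mpr ⟨β, hβ, hm, tg_gt.mpr h⟩)).ne'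
    refine h1.trans_lt (h2.lt_of_ne fun heq => ?_)
    rcases lt_or_gt_of_ne hne with h | h
    · obtain ⟨z, hz1, hz2, hz3⟩ := hρ _ _ h heq
      exact absurd (hmin z (fun a ha => (hmβ1 a ha).trans hz1) (fun b hb => hz2.trans (hyβ2 b hb)))
        (not_le.mpr hz3)
    · obtain ⟨z, hz1, hz2, hz3⟩ := hρ _ _ h heq.symm
      exact absurd (hmin z (fun a ha => (hyβ1 a ha).trans hz1) (fun b hb => hz2.trans (hmβ2 b hb)))
        (not_le.mpr (hz3.trans_eq heq.symm))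

theorem hit {π : L × L → L} (hπ : ∀ a b, LL a b → π a < π b)
    (hs : ∀ p, Good κ p → ∃ m ∈ M p,
      ∀ y, (∀ a ∈ p.1, π a < y) → (∀ b ∈ p.2, y < π b) → ρ (π m) ≤ ρ y) (x : L) :
    ∃ β, (∃ q ∈ M (pos M (tg π x) (β : W)), π q = x) ∧
      ∀ γ, γ < β → ∀ q ∈ M (pos M (tg π x) γ), π q ≠ x := by
  have hex : ∃ β : W, ∃ q ∈ M (pos M (tg π x) β), π q = x := by
    by_contra hc
    push Not at hc
    have hg := good_pos hκ hW hM (tg_mono hπ x) (ρ x)
    obtain ⟨m, hm, hmin⟩ := hs _ hg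
    have hx1 : ∀ a ∈ (pos M (tg π x) (ρ x)).1, π a < x := by
      intro a ha
      obtain ⟨γ, hγ, h1, h2⟩ := mem_lo.mp ha
      exact tg_lt.mp h2
    have hx2 : ∀ b ∈ (pos M (tg π x) (ρ x)).2, x < π b := by
      intro b hb
      obtain ⟨γ, hγ, h1, h2⟩ := mem_hi.mp hb
      exact tg_gt.mp h2
    have hm1 : ∀ a ∈ (pos M (tg π x) (ρ x)).1, π a < π m := fun a ha =>
      hπ _ _ ((hM _ hg).gapL m hm a ha)
    have hm2 : ∀ b ∈ (pos M (tg π x) (ρ x)).2, π m < π b := fun b hb =>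
      hπ _ _ ((hM _ hg).gapR m hm b hb)
    have h1 : ρ x ≤ ρ (π m) := rank_lemma hκ hW hM hρ hπ hs x (ρ x)
      (fun β _ => hc β) (π m) hm1 hm2
    have h2 : ρ (π m) ≤ ρ x := hmin x hx1 hx2
    have heq := le_antisymm h2 h1
    rcases lt_or_gt_of_ne (hc (ρ x) m hm) with h | h
    · obtain ⟨z, hz1, hz2, hz3⟩ := hρ _ _ h heq
      exact absurd (hmin z (fun a ha => (hm1 a ha).trans hz1) (fun b hb => hz2.trans (hx2 b hb)))
        (not_le.mpr hz3)
    · obtain ⟨z, hz1, hz2, hz3⟩ := hρ _ _ h heq.symm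
      exact absurd (hmin z (fun a ha => (hx1 a ha).trans hz1) (fun b hb => hz2.trans (hm2 b hb)))
        (not_le.mpr (hz3.trans_eq heq.symm))
  refine ⟨(wellFounded_lt (α := W)).min {β | ∃ q ∈ M (pos M (tg π x) β), π q = x} hex,
    (wellFounded_lt (α := W)).min_mem {β | ∃ q ∈ M (pos M (tg π x) β), π q = x} hex, ?_⟩
  intro γ hγ q hq hqx
  exact (wellFounded_lt (α := W)).not_lt_min {β | ∃ q ∈ M (pos M (tg π x) β), π q = x}
    (show γ ∈ {β | ∃ q ∈ M (pos M (tg π x) β), π q = x} from ⟨q, hq, hqx⟩) hγ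

omit hρ in
/-- Two pairs hit at the same first coordinate coincide. -/
theorem same_fst {q r : L × L} {β γ : W} (h : q.1 = r.1)
    (hq : q ∈ M (pos M (tg Prod.fst q.1) β))
    (hq' : ∀ δ, δ < β → ∀ p ∈ M (pos M (tg Prod.fst q.1) δ), p.1 ≠ q.1)
    (hr : r ∈ M (pos M (tg Prod.fst r.1) γ))
    (hr' : ∀ δ, δ < γ → ∀ p ∈ M (pos M (tg Prod.fst r.1) δ), p.1 ≠ r.1) : q = r := by
  rw [← h] at hr hr'
  rcases lt_trichotomy β γ with h1 | h1 | h1
  · exact absurd rfl (hr' β h1 q hq)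
  · subst h1
    rcases (hM _ (good_pos hκ hW hM (tg_mono (fun _ _ h => h.1) q.1) β)).cmp q hq r hr with
      h2 | h2 | h2
    · exact h2
    · exact absurd h (h2.1).ne
    · exact absurd h (h2.1).ne'
  · exact absurd h.symm (hq' γ h1 r hr)

omit hρ in
theorem mono_pairs {q r : L × L} {β γ : W}
    (hq : q ∈ M (pos M (tg Prod.fst q.1) β))
    (hq' : ∀ δ, δ < β → ∀ p ∈ M (pos M (tg Prod.fst q.1) δ), p.1 ≠ q.1)
    (hr : r ∈ M (pos M (tg Prod.fst r.1) γ))
    (hr' : ∀ δ, δ < γ → ∀ p ∈ M (pos M (tg Prod.fst r.1) δ), p.1 ≠ r.1)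
    (hlt : q.1 < r.1) : q.2 < r.2 := by
  set T : Set W := {δ | ∃ p ∈ M (pos M (tg Prod.fst q.1) δ), q.1 ≤ p.1 ∧ p.1 ≤ r.1} with hT
  have hTβ : β ∈ T := ⟨q, hq, le_rfl, hlt.le⟩
  have hTne : T.Nonempty := ⟨β, hTβ⟩
  have hδT := (wellFounded_lt (α := W)).min_mem T hTne
  have hδmin : ∀ ε, ε < (wellFounded_lt (α := W)).min T hTne → ε ∉ T := fun ε hε hc =>
    (wellFounded_lt (α := W)).not_lt_min T hc hε
  have hδβ : (wellFounded_lt (α := W)).min T hTne ≤ β := WellFounded.min_le _ hTβ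
  generalize (wellFounded_lt (α := W)).min T hTne = δ at hδT hδmin hδβ
  have hag : ∀ ε, ε ≤ δ → pos M (tg Prod.fst q.1) ε = pos M (tg Prod.fst r.1) ε := by
    intro ε hε
    refine agree ε fun η hη p hp => ?_
    have hn : ¬ (q.1 ≤ p.1 ∧ p.1 ≤ r.1) := fun hc => hδmin η (hη.trans_le hε) ⟨p, hp, hc⟩
    rcases lt_or_ge p.1 q.1 with h1 | h1
    · rw [tg_lt.mpr h1, tg_lt.mpr (h1.trans hlt)]
    · have h2 : r.1 < p.1 := by
        by_contra hc
        exact hn ⟨h1, not_lt.mp hc⟩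
      rw [tg_gt.mpr h2, tg_gt.mpr (hlt.trans h2)]
  have hδγ : δ ≤ γ := by
    by_contra hc
    have hc' := not_le.mp hc
    refine hδmin γ hc' ⟨r, ?_, hlt.le, le_rfl⟩
    rw [hag γ hc'.le]
    exact hr
  obtain ⟨p, hp, hp1, hp2⟩ := hδT
  have hgq := fun ε => good_pos hκ hW hM (tg_mono (π := Prod.fst) (fun _ _ h => h.1) q.1) ε
  have hgr := fun ε => good_pos hκ hW hM (tg_mono (π := Prod.fst) (fun _ _ h => h.1) r.1) ε
  have hp' : p ∈ M (pos M (tg Prod.fst r.1) δ) := by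
    rw [← hag δ le_rfl]
    exact hp
  have hleft : q.2 ≤ p.2 ∧ (q.1 < p.1 → q.2 < p.2) := by
    rcases hp1.eq_or_lt with h1 | h1
    · have h2 : δ = β := by
        refine hδβ.eq_of_not_lt fun hc => ?_
        exact hq' δ hc p hp h1.symm
      subst h2
      rcases (hM _ (hgq δ)).cmp q hq p hp with h3 | h3 | h3
      · exact ⟨by rw [h3], fun h => absurd h1 h.ne⟩
      · exact absurd h1 (h3.1).ne
      · exact absurd h1 (h3.1).ne'
    · have h4 : q.2 < p.2 := by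
        rcases hδβ.eq_or_lt with h2 | h2
        · subst h2
          rcases (hM _ (hgq δ)).cmp q hq p hp with h3 | h3 | h3
          · exact absurd (by rw [h3]) h1.ne
          · exact h3.2
          · exact absurd h3.1 h1.not_gt
        · exact ((hM _ (hgq β)).gapR q hq p (mem_hi.mpr ⟨δ, h2, hp, tg_gt.mpr h1⟩)).2
      exact ⟨h4.le, fun _ => h4⟩
  have hright : p.2 ≤ r.2 ∧ (p.1 < r.1 → p.2 < r.2) := by
    rcases hp2.eq_or_lt with h1 | h1
    · have h2 : δ = γ := by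
        refine hδγ.eq_of_not_lt fun hc => ?_
        exact hr' δ hc p hp' h1
      subst h2
      rcases (hM _ (hgr δ)).cmp p hp' r hr with h3 | h3 | h3
      · exact ⟨by rw [h3], fun h => absurd h1 h.ne⟩
      · exact absurd h1 (h3.1).ne
      · exact absurd h1 (h3.1).ne'
    · have h4 : p.2 < r.2 := by
        rcases hδγ.eq_or_lt with h2 | h2
        · subst h2
          rcases (hM _ (hgr δ)).cmp p hp' r hr with h3 | h3 | h3
          · exact absurd (by rw [h3]) h1.ne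
          · exact h3.2
          · exact absurd h3.1 h1.not_gt
        · exact ((hM _ (hgr γ)).gapL r hr p (mem_lo.mpr ⟨δ, h2, hp', tg_lt.mpr h1⟩)).2
      exact ⟨h4.le, fun _ => h4⟩
  rcases hp1.eq_or_lt with h1 | h1
  · exact hleft.1.trans_lt (hright.2 (h1 ▸ hlt))
  · exact (hleft.2 h1).trans_le hright.1

omit hρ in
/-- A pair found along its second coordinate is found along its first coordinate. -/
theorem snd_fst {q : L × L} {β : W} (hq : q ∈ M (pos M (tg Prod.snd q.2) β))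
    (hq' : ∀ δ, δ < β → ∀ p ∈ M (pos M (tg Prod.snd q.2) δ), p.2 ≠ q.2) :
    q ∈ M (pos M (tg Prod.fst q.1) β) ∧
      ∀ δ, δ < β → ∀ p ∈ M (pos M (tg Prod.fst q.1) δ), p.1 ≠ q.1 := by
  have hg := fun ε => good_pos hκ hW hM (tg_mono (π := Prod.snd) (fun _ _ h => h.2) q.2) ε
  have hside : ∀ δ, δ < β → ∀ p ∈ M (pos M (tg Prod.snd q.2) δ),
      tg Prod.snd q.2 p = tg Prod.fst q.1 p ∧ p.1 ≠ q.1 := by
    intro δ hδ p hp
    rcases lt_trichotomy p.2 q.2 with h | h | h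
    · have h1 := (hM _ (hg β)).gapL q hq p (mem_lo.mpr ⟨δ, hδ, hp, tg_lt.mpr h⟩)
      exact ⟨by rw [tg_lt.mpr h, tg_lt.mpr h1.1], h1.1.ne⟩
    · exact absurd h (hq' δ hδ p hp)
    · have h1 := (hM _ (hg β)).gapR q hq p (mem_hi.mpr ⟨δ, hδ, hp, tg_gt.mpr h⟩)
      exact ⟨by rw [tg_gt.mpr h, tg_gt.mpr h1.1], h1.1.ne'⟩
  have hag : ∀ ε, ε ≤ β → pos M (tg Prod.snd q.2) ε = pos M (tg Prod.fst q.1) ε := by
    intro ε hε
    exact agree ε fun η hη p hp => (hside η (hη.trans_le hε) p hp).1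
  refine ⟨by rw [← hag β le_rfl]; exact hq, ?_⟩
  intro δ hδ p hp
  rw [← hag δ hδ.le] at hp
  exact (hside δ hδ p hp).2

/-- The automorphism defined by a move function. -/
theorem auto_of_move [Nonempty L] : ∃ g : L ≃o L, (∃ x, g x ≠ x) ∧ ∀ x, f (g x) = f x := by
  have hs1 : ∀ p, Good κ p → ∃ m ∈ M p,
      ∀ y, (∀ a ∈ p.1, Prod.fst a < y) → (∀ b ∈ p.2, y < Prod.fst b) → ρ (Prod.fst m) ≤ ρ y := by
    intro p hp
    obtain ⟨m, hm, _, h⟩ := (hM p hp).s1
    exact ⟨m, hm, h⟩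
  have hs2 : ∀ p, Good κ p → ∃ m ∈ M p,
      ∀ y, (∀ a ∈ p.1, Prod.snd a < y) → (∀ b ∈ p.2, y < Prod.snd b) → ρ (Prod.snd m) ≤ ρ y := by
    intro p hp
    obtain ⟨m, hm, h⟩ := (hM p hp).s2
    exact ⟨m, hm, h⟩
  set G : L × L → Prop := fun q => ∃ β : W, q ∈ M (pos M (tg Prod.fst q.1) β) ∧
    ∀ δ, δ < β → ∀ p ∈ M (pos M (tg Prod.fst q.1) δ), p.1 ≠ q.1 with hG
  have htot : ∀ x, ∃ y, G (x, y) := by
    intro x
    obtain ⟨β, ⟨q, hq, hqx⟩, hun⟩ := hit hκ hW hM hρ (π := Prod.fst) (fun _ _ h => h.1) hs1 x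
    obtain ⟨q1, q2⟩ := q
    simp only at hqx
    subst hqx
    exact ⟨q2, β, hq, hun⟩
  have hsur : ∀ y, ∃ x, G (x, y) := by
    intro y
    obtain ⟨β, ⟨q, hq, hqy⟩, hun⟩ := hit hκ hW hM hρ (π := Prod.snd) (fun _ _ h => h.2) hs2 y
    obtain ⟨q1, q2⟩ := q
    simp only at hqy
    subst hqy
    obtain ⟨h1, h2⟩ := snd_fst hκ hW hM (q := (q1, q2)) hq hun
    exact ⟨q1, β, h1, h2⟩
  have hfun : ∀ q r, G q → G r → q.1 = r.1 → q = r := by
    rintro q r ⟨β, hq, hq'⟩ ⟨γ, hr, hr'⟩ h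
    exact same_fst hκ hW hM h hq hq' hr hr'
  have hmono : ∀ q r, G q → G r → q.1 < r.1 → q.2 < r.2 := by
    rintro q r ⟨β, hq, hq'⟩ ⟨γ, hr, hr'⟩ h
    exact mono_pairs hκ hW hM hq hq' hr hr' h
  have hcol : ∀ q, G q → f q.1 = f q.2 := by
    rintro q ⟨β, hq, _⟩
    exact (hM _ (good_pos hκ hW hM (tg_mono (fun _ _ h => h.1) q.1) β)).col q hq
  choose g hg using htot
  have hgm : StrictMono g := fun x y hxy => hmono _ _ (hg x) (hg y) hxy
  have hgs : Function.Surjective g := by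
    intro y
    obtain ⟨x, hx⟩ := hsur y
    exact ⟨x, congrArg Prod.snd (hfun _ _ (hg x) hx rfl)⟩
  refine ⟨StrictMono.orderIsoOfSurjective g hgm hgs, ?_, fun x => (hcol _ (hg x)).symm⟩
  obtain ⟨x0⟩ := ‹Nonempty L›
  have hbot : ∃ w : W, ∀ v, ¬ v < w := by
    have hne : (univ : Set W).Nonempty := ⟨ρ x0, trivial⟩
    exact ⟨(wellFounded_lt (α := W)).min univ hne, fun v hv =>
      (wellFounded_lt (α := W)).not_lt_min univ (mem_univ v) hv⟩
  obtain ⟨w, hw⟩ := hbot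
  have hp0 : ∀ t : L × L → Ordering, pos M t w = (∅, ∅) := by
    intro t
    refine Prod.ext ?_ ?_
    · ext q
      rw [mem_lo]
      simp only [mem_empty_iff_false, iff_false]
      rintro ⟨β, hβ, _⟩
      exact hw β hβ
    · ext q
      rw [mem_hi]
      simp only [mem_empty_iff_false, iff_false]
      rintro ⟨β, hβ, _⟩
      exact hw β hβ
  have hgood : Good κ ((∅, ∅) : Pos L) := by
    refine ⟨?_, ?_, ?_⟩
    · intro a ha
      exact absurd ha (notMem_empty a)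
    · simpa using aleph0_pos.trans hκ
    · simpa using aleph0_pos.trans hκ
  obtain ⟨m, hm, hne, _⟩ := (hM _ hgood).s1
  have hGm : G m := ⟨w, by rw [hp0]; exact hm, fun δ hδ => absurd hδ (hw δ)⟩
  refine ⟨m.1, ?_⟩
  have h1 : (m.1, g m.1) = m := hfun _ _ (hg m.1) hGm rfl
  have h2 : g m.1 = m.2 := congrArg Prod.snd h1
  change g m.1 ≠ m.1
  rw [h2]
  exact hne.symm

end Generic

end Pool.Agent.R795.ML
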