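import Pool.Agent.R795.ML.Auto

/-!
# Every colouring with few colours of a ranked saturated order has a symmetry
-/

set_option autoImplicit false
set_option linter.unusedSectionVars false

open Cardinal Set

namespace Pool.Agent.R795.ML

variable {L W C : Type} [LinearOrder L] [LinearOrder W] [WellFoundedLT W]

/-- Small cuts are filled. -/
def Fills (L : Type) [LinearOrder L] (κ : Cardinal.{0}) : Prop :=
  ∀ A B : Set L, #A < κ → #B < κ → (∀ a ∈ A, ∀ b ∈ B, a < b) →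
    ∃ x : L, (∀ a ∈ A, a < x) ∧ ∀ b ∈ B, x < b

theorem Fills.two {κ : Cardinal.{0}} (hκ : ℵ₀ ≤ κ) (h : Fills L κ) {A B : Set L} (hA : #A < κ)
    (hB : #B < κ) (hAB : ∀ a ∈ A, ∀ b ∈ B, a < b) :
    ∃ x y : L, x < y ∧ (∀ a ∈ A, a < x) ∧ ∀ b ∈ B, y < b := by
  obtain ⟨x, hx1, hx2⟩ := h A B hA hB hAB
  have hA' : #(insert x A : Set L) < κ := by
    refine (mk_insert_le).trans_lt (add_lt_of_lt hκ hA (one_lt_aleph0.trans_le hκ))
  obtain ⟨y, hy1, hy2⟩ := h (insert x A) B hA' hB (by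
    intro a ha b hb
    rcases ha with rfl | ha
    · exact hx2 b hb
    · exact hAB a ha b hb)
  exact ⟨x, y, hy1 x (mem_insert _ _), hx1, hy2⟩

section Move

variable {κ : Cardinal.{0}} {ρ : L → W} {f : L → C}

theorem exists_move (hκ : ℵ₀ < κ) (hfill : Fills L κ)
    (hd : ∀ x u v : L, u < v → ∃ y, u < y ∧ y < v ∧ f y = f x) (p : Pos L) (hp : Good κ p) :
    ∃ S, Spec ρ f p S := by
  obtain ⟨hlt, hlo, hhi⟩ := hp
  -- the two gaps
  have hA : ∀ π : L × L → L, #(π '' p.1) < κ := fun π => mk_image_le.trans_lt hlo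
  have hB : ∀ π : L × L → L, #(π '' p.2) < κ := fun π => mk_image_le.trans_lt hhi
  have hAB1 : ∀ a ∈ Prod.fst '' p.1, ∀ b ∈ Prod.fst '' p.2, a < b := by
    rintro _ ⟨a, ha, rfl⟩ _ ⟨b, hb, rfl⟩
    exact (hlt a ha b hb).1
  have hAB2 : ∀ a ∈ Prod.snd '' p.1, ∀ b ∈ Prod.snd '' p.2, a < b := by
    rintro _ ⟨a, ha, rfl⟩ _ ⟨b, hb, rfl⟩
    exact (hlt a ha b hb).2
  -- simplest points
  have hsimp : ∀ π : L × L → L, (∀ a ∈ π '' p.1, ∀ b ∈ π '' p.2, a < b) →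
      ∃ z, (∀ a ∈ p.1, π a < z) ∧ (∀ b ∈ p.2, z < π b) ∧
        ∀ y, (∀ a ∈ p.1, π a < y) → (∀ b ∈ p.2, y < π b) → ρ z ≤ ρ y := by
    intro π hAB
    obtain ⟨x, hx1, hx2⟩ := hfill _ _ (hA π) (hB π) hAB
    set T : Set L := {y | (∀ a ∈ p.1, π a < y) ∧ ∀ b ∈ p.2, y < π b} with hT
    have hTne : T.Nonempty := ⟨x, fun a ha => hx1 _ ⟨a, ha, rfl⟩, fun b hb => hx2 _ ⟨b, hb, rfl⟩⟩
    have hwf : WellFounded (fun a b : L => ρ a < ρ b) := InvImage.wf ρ wellFounded_lt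
    have h1 := hwf.min_mem T hTne
    refine ⟨hwf.min T hTne, h1.1, h1.2, fun y hy1 hy2 => ?_⟩
    exact not_lt.mp (hwf.not_lt_min T (show y ∈ T from ⟨hy1, hy2⟩))
  obtain ⟨z, hz1, hz2, hz3⟩ := hsimp Prod.fst hAB1
  obtain ⟨w', hw1, hw2, hw3⟩ := hsimp Prod.snd hAB2
  -- a partner of z different from z
  obtain ⟨z', hzz', hz'1, hz'2, hz'c⟩ : ∃ z', z ≠ z' ∧ (∀ a ∈ p.1, a.2 < z') ∧
      (∀ b ∈ p.2, z' < b.2) ∧ f z' = f z := by
    obtain ⟨u, v, huv, hu, hv⟩ := hfill.two hκ.le (hA Prod.snd) (hB Prod.snd) hAB2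
    obtain ⟨y1, hy1u, hy1v, hy1c⟩ := hd z u v huv
    obtain ⟨y2, hy2u, hy2v, hy2c⟩ := hd z y1 v hy1v
    by_cases hzy : z = y1
    · refine ⟨y2, by rw [hzy]; exact hy2u.ne, ?_, ?_, hy2c⟩
      · intro a ha
        exact (hu _ ⟨a, ha, rfl⟩).trans (hy1u.trans hy2u)
      · intro b hb
        exact hy2v.trans (hv _ ⟨b, hb, rfl⟩)
    · refine ⟨y1, hzy, ?_, ?_, hy1c⟩
      · intro a ha
        exact (hu _ ⟨a, ha, rfl⟩).trans hy1u
      · intro b hb
        exact hy1v.trans (hv _ ⟨b, hb, rfl⟩)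
  -- a partner of w'
  obtain ⟨w, hw1', hw2', hwc, hwz⟩ : ∃ w, (∀ a ∈ p.1, a.1 < w) ∧ (∀ b ∈ p.2, w < b.1) ∧
      f w = f w' ∧ ((z, z') = (w, w') ∨ LL (z, z') (w, w') ∨ LL (w, w') (z, z')) := by
    rcases lt_trichotomy z' w' with h | h | h
    · -- w above z
      have hA' : #(insert z (Prod.fst '' p.1) : Set L) < κ :=
        (mk_insert_le).trans_lt (add_lt_of_lt hκ.le (hA _) (one_lt_aleph0.trans hκ))
      obtain ⟨u, v, huv, hu, hv⟩ := hfill.two hκ.le hA' (hB Prod.fst) (by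
        intro a ha b hb
        rcases ha with rfl | ha
        · obtain ⟨b, hb, rfl⟩ := hb
          exact hz2 b hb
        · exact hAB1 a ha b hb)
      obtain ⟨w, hwu, hwv, hwc⟩ := hd w' u v huv
      refine ⟨w, ?_, ?_, hwc, Or.inr (Or.inl ⟨?_, h⟩)⟩
      · intro a ha
        exact (hu _ (mem_insert_of_mem _ ⟨a, ha, rfl⟩)).trans hwu
      · intro b hb
        exact hwv.trans (hv _ ⟨b, hb, rfl⟩)
      · exact (hu _ (mem_insert _ _)).trans hwu
    · subst h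
      exact ⟨z, hz1, hz2, hz'c.symm, Or.inl rfl⟩
    · have hB' : #(insert z (Prod.fst '' p.2) : Set L) < κ :=
        (mk_insert_le).trans_lt (add_lt_of_lt hκ.le (hB _) (one_lt_aleph0.trans hκ))
      obtain ⟨u, v, huv, hu, hv⟩ := hfill.two hκ.le (hA Prod.fst) hB' (by
        intro a ha b hb
        rcases hb with rfl | hb
        · obtain ⟨a, ha, rfl⟩ := ha
          exact hz1 a ha
        · exact hAB1 a ha b hb)
      obtain ⟨w, hwu, hwv, hwc⟩ := hd w' u v huv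
      refine ⟨w, ?_, ?_, hwc, Or.inr (Or.inr ⟨?_, h⟩)⟩
      · intro a ha
        exact (hu _ ⟨a, ha, rfl⟩).trans hwu
      · intro b hb
        exact hwv.trans (hv _ (mem_insert_of_mem _ ⟨b, hb, rfl⟩))
      · exact hwv.trans (hv _ (mem_insert _ _))
  refine ⟨{(z, z'), (w, w')}, ?_, ?_, ?_, ?_, ?_, ?_, ?_⟩
  · exact (finite_singleton _).insert _
  · rintro q (rfl | rfl) a ha
    · exact ⟨hz1 a ha, hz'1 a ha⟩
    · exact ⟨hw1' a ha, hw1 a ha⟩
  · rintro q (rfl | rfl) b hb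
    · exact ⟨hz2 b hb, hz'2 b hb⟩
    · exact ⟨hw2' b hb, hw2 b hb⟩
  · rintro q (rfl | rfl) r (rfl | rfl)
    · exact Or.inl rfl
    · exact hwz
    · rcases hwz with h | h | h
      · exact Or.inl h.symm
      · exact Or.inr (Or.inr h)
      · exact Or.inr (Or.inl h)
    · exact Or.inl rfl
  · rintro q (rfl | rfl)
    · exact hz'c.symm
    · exact hwc
  · exact ⟨(z, z'), mem_insert _ _, hzz', hz3⟩
  · exact ⟨(w, w'), mem_insert_of_mem _ rfl, hw3⟩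

theorem auto_dense [Nonempty L] (hκ : ℵ₀ < κ) (hW : ∀ w : W, #(Iio w) < κ) (hfill : Fills L κ)
    (hρ : ∀ x y : L, x < y → ρ x = ρ y → ∃ z, x < z ∧ z < y ∧ ρ z < ρ x)
    (hd : ∀ x u v : L, u < v → ∃ y, u < y ∧ y < v ∧ f y = f x) :
    ∃ g : L ≃o L, (∃ x, g x ≠ x) ∧ ∀ x, f (g x) = f x := by
  classical
  have h := exists_move (ρ := ρ) hκ hfill hd
  set M : Pos L → Set (L × L) := fun p => if hp : Good κ p then (h p hp).choose else ∅ with hM
  refine auto_of_move (ρ := ρ) (M := M) hκ hW (fun p hp => ?_) hρ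
  rw [hM]
  simp only [hp, dif_pos]
  exact (h p hp).choose_spec

end Move

section Interval

variable {κ : Cardinal.{0}} {f : L → C}

/-- An interval in which the colour is absent or dense. -/
def DJ (f : L → C) (ξ : C) (J : L × L) : Prop :=
  J.1 < J.2 ∧ ((∀ y, J.1 < y → y < J.2 → f y ≠ ξ) ∨
    ∀ u v, J.1 ≤ u → u < v → v ≤ J.2 → ∃ y, u < y ∧ y < v ∧ f y = ξ)

theorem exists_interval [Nonempty L] (hκ : ℵ₀ < κ) (hC : #C < κ) (hfill : Fills L κ) :
    ∃ a b : L, a < b ∧ ∀ x, a < x → x < b → ∀ u v, a ≤ u → u < v → v ≤ b →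
      ∃ y, u < y ∧ y < v ∧ f y = f x := by
  classical
  obtain ⟨x0⟩ := ‹Nonempty L›
  let r : C → C → Prop := WellOrderingRel
  have hwf : WellFounded r := (inferInstance : IsWellOrder C WellOrderingRel).wf
  let J : C → L × L := hwf.fix fun ξ ih =>
    if h : ∃ J : L × L, DJ f ξ J ∧ ∀ η (hη : r η ξ), (ih η hη).1 ≤ J.1 ∧ J.2 ≤ (ih η hη).2 then
      h.choose else (x0, x0)
  have hJ : ∀ ξ, J ξ = if h : ∃ K : L × L, DJ f ξ K ∧ ∀ η (_ : r η ξ), (J η).1 ≤ K.1 ∧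
      K.2 ≤ (J η).2 then h.choose else (x0, x0) := by
    intro ξ
    change hwf.fix _ ξ = _
    rw [WellFounded.fix_eq]
  have inside : ∀ T : Set C, (∀ ξ ∈ T, (J ξ).1 < (J ξ).2) →
      (∀ ξ ∈ T, ∀ η ∈ T, r η ξ → (J η).1 ≤ (J ξ).1 ∧ (J ξ).2 ≤ (J η).2) →
      ∃ x y, x < y ∧ ∀ ξ ∈ T, (J ξ).1 < x ∧ y < (J ξ).2 := by
    intro T h1 h2
    have hc : ∀ g : C → L, #(g '' T) < κ := fun g =>
      mk_image_le.trans_lt ((mk_set_le T).trans_lt hC)
    obtain ⟨x, y, hxy, hx, hy⟩ := hfill.two hκ.le (hc fun ξ => (J ξ).1) (hc fun ξ => (J ξ).2) (by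
      rintro _ ⟨ξ, hξ, rfl⟩ _ ⟨η, hη, rfl⟩
      rcases trichotomous_of r ξ η with h | h | h
      · exact (h2 η hη ξ hξ h).1.trans_lt (h1 η hη)
      · subst h
        exact h1 ξ hξ
      · exact (h1 ξ hξ).trans_le (h2 ξ hξ η hη h).2)
    exact ⟨x, y, hxy, fun ξ hξ => ⟨hx _ ⟨ξ, hξ, rfl⟩, hy _ ⟨ξ, hξ, rfl⟩⟩⟩
  have key : ∀ ξ, DJ f ξ (J ξ) ∧ ∀ η, r η ξ → (J η).1 ≤ (J ξ).1 ∧ (J ξ).2 ≤ (J η).2 := by
    intro ξ
    induction ξ using hwf.induction with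
    | _ ξ ih =>
      obtain ⟨x, y, hxy, hin⟩ := inside {η | r η ξ} (fun η hη => (ih η hη).1.1)
        (fun η hη ζ _ hζη => (ih η hη).2 ζ hζη)
      have hex : ∃ K : L × L, DJ f ξ K ∧ ∀ η (_ : r η ξ), (J η).1 ≤ K.1 ∧ K.2 ≤ (J η).2 := by
        by_cases hc : ∃ u v, x ≤ u ∧ u < v ∧ v ≤ y ∧ ∀ w, u < w → w < v → f w ≠ ξ
        · obtain ⟨u, v, hxu, huv, hvy, hno⟩ := hc
          refine ⟨(u, v), ⟨huv, Or.inl hno⟩, fun η hη => ?_⟩
          have := hin η hη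
          exact ⟨this.1.le.trans hxu, hvy.trans this.2.le⟩
        · refine ⟨(x, y), ⟨hxy, Or.inr fun u v hxu huv hvy => ?_⟩, fun η hη => ?_⟩
          · by_contra hno
            push Not at hno
            exact hc ⟨u, v, hxu, huv, hvy, hno⟩
          · have := hin η hη
            exact ⟨this.1.le, this.2.le⟩
      rw [hJ ξ, dif_pos hex]
      exact hex.choose_spec
  obtain ⟨a, b, hab, hin⟩ := inside univ (fun ξ _ => (key ξ).1.1)
    (fun ξ _ η _ h => (key ξ).2 η h)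
  refine ⟨a, b, hab, fun x hax hxb u v hau huv hvb => ?_⟩
  obtain ⟨h1, h2⟩ := hin (f x) (mem_univ _)
  rcases (key (f x)).1.2 with h | h
  · exact absurd rfl (h x (h1.trans hax) (hxb.trans h2))
  · exact h u v (h1.le.trans hau) huv (hvb.trans h2.le)

/-- Extension of an automorphism of an interval by the identity. -/
theorem extend_auto {a b : L} (g : Ioo a b ≃o Ioo a b) :
    ∃ g' : L ≃o L, (∀ x : Ioo a b, g' x = g x) ∧ ∀ x, x ∉ Ioo a b → g' x = x := by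
  classical
  set G : L → L := fun x => if h : x ∈ Ioo a b then (g ⟨x, h⟩ : L) else x with hG
  have hin : ∀ x (h : x ∈ Ioo a b), G x = g ⟨x, h⟩ := fun x h => by rw [hG]; simp only [h, dif_pos]
  have hout : ∀ x, x ∉ Ioo a b → G x = x := fun x h => by
    rw [hG]; simp only [h, not_false_eq_true, dif_neg]
  have hm : StrictMono G := by
    intro x y hxy
    by_cases hx : x ∈ Ioo a b
    · by_cases hy : y ∈ Ioo a b
      · rw [hin x hx, hin y hy]
        exact g.strictMono (show (⟨x, hx⟩ : Ioo a b) < ⟨y, hy⟩ from hxy)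
      · rw [hin x hx, hout y hy]
        have h1 : b ≤ y := by
          by_contra hc
          exact hy ⟨hx.1.trans hxy, not_le.mp hc⟩
        exact (g ⟨x, hx⟩).2.2.trans_le h1
    · by_cases hy : y ∈ Ioo a b
      · rw [hout x hx, hin y hy]
        have h1 : x ≤ a := by
          by_contra hc
          exact hx ⟨not_le.mp hc, hxy.trans hy.2⟩
        exact h1.trans_lt (g ⟨y, hy⟩).2.1
      · rw [hout x hx, hout y hy]
        exact hxy
  have hs : Function.Surjective G := by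
    intro y
    by_cases hy : y ∈ Ioo a b
    · refine ⟨g.symm ⟨y, hy⟩, ?_⟩
      rw [hin _ (g.symm ⟨y, hy⟩).2]
      simp
    · exact ⟨y, hout y hy⟩
  exact ⟨StrictMono.orderIsoOfSurjective G hm hs, fun x => hin x.1 x.2, hout⟩

theorem auto_color {ρ : L → W} [Nonempty L] (hκ : ℵ₀ < κ) (hW : ∀ w : W, #(Iio w) < κ)
    (hfill : Fills L κ)
    (hρ : ∀ x y : L, x < y → ρ x = ρ y → ∃ z, x < z ∧ z < y ∧ ρ z < ρ x)
    (hC : #C < κ) (f : L → C) :
    ∃ g : L ≃o L, (∃ x, g x ≠ x) ∧ ∀ x, f (g x) = f x := by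
  obtain ⟨a, b, hab, hd⟩ := exists_interval (f := f) hκ hC hfill
  have hfill' : Fills (Ioo a b) κ := by
    intro A B hA hB hAB
    have h1 : #(insert a (Subtype.val '' A) : Set L) < κ :=
      (mk_insert_le).trans_lt (add_lt_of_lt hκ.le (mk_image_le.trans_lt hA)
        (one_lt_aleph0.trans hκ))
    have h2 : #(insert b (Subtype.val '' B) : Set L) < κ :=
      (mk_insert_le).trans_lt (add_lt_of_lt hκ.le (mk_image_le.trans_lt hB)
        (one_lt_aleph0.trans hκ))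
    obtain ⟨x, hx1, hx2⟩ := hfill _ _ h1 h2 (by
      intro u hu v hv
      rcases hu with rfl | ⟨u, hu, rfl⟩
      · rcases hv with rfl | ⟨v, hv, rfl⟩
        · exact hab
        · exact v.2.1
      · rcases hv with rfl | ⟨v, hv, rfl⟩
        · exact u.2.2
        · exact hAB u hu v hv)
    refine ⟨⟨x, hx1 a (mem_insert _ _), hx2 b (mem_insert _ _)⟩, ?_, ?_⟩
    · intro u hu
      exact hx1 _ (mem_insert_of_mem _ ⟨u, hu, rfl⟩)
    · intro v hv
      exact hx2 _ (mem_insert_of_mem _ ⟨v, hv, rfl⟩)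
  have hne : Nonempty (Ioo a b) := by
    obtain ⟨x, _, _⟩ := hfill' ∅ ∅ (by simpa using aleph0_pos.trans hκ)
      (by simpa using aleph0_pos.trans hκ) (by simp)
    exact ⟨x⟩
  obtain ⟨g, ⟨x, hx⟩, hg⟩ := auto_dense (κ := κ) (ρ := fun x : Ioo a b => ρ x)
    (f := fun x : Ioo a b => f x) hκ hW hfill' (by
      intro x y hxy hr
      obtain ⟨z, hz1, hz2, hz3⟩ := hρ x y hxy hr
      exact ⟨⟨z, x.2.1.trans hz1, hz2.trans y.2.2⟩, hz1, hz2, hz3⟩) (by
      intro x u v huv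
      obtain ⟨y, hy1, hy2, hy3⟩ := hd x x.2.1 x.2.2 u v u.2.1.le huv v.2.2.le
      exact ⟨⟨y, u.2.1.trans hy1, hy2.trans v.2.2⟩, hy1, hy2, hy3⟩)
  obtain ⟨g', hg1, hg2⟩ := extend_auto g
  refine ⟨g', ⟨x, ?_⟩, ?_⟩
  · rw [hg1]
    exact fun h => hx (Subtype.ext h)
  · intro y
    by_cases hy : y ∈ Ioo a b
    · have h1 := hg1 ⟨y, hy⟩
      simp only at h1
      rw [h1]
      exact hg ⟨y, hy⟩
    · rw [hg2 y hy]

end Interval

end Pool.Agent.R795.ML
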