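import Mathlib

/-!
# A ranked linear order in which small cuts are filled

For a well order `W` of order type a regular cardinal `κ` the sign sequences of length less than `κ`
form a linear order in which any two sets `A < B` of cardinality less than `κ` are separated by a
point, and in which two points of the same rank have a point of smaller rank between them.
-/

set_option autoImplicit false

open Cardinal Set

namespace Pool.Agent.R795.ML

universe u

/-- Sign sequences: functions which are nonzero below the rank and zero from the rank on. -/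
structure Sg (W : Type u) [LinearOrder W] where
  /-- the sequence -/
  s : W → SignType
  /-- the length -/
  rk : W
  hlt : ∀ v, v < rk → s v ≠ 0
  hge : ∀ v, rk ≤ v → s v = 0

variable {W : Type u} [LinearOrder W]

theorem Sg.ext' {f g : Sg W} (h : f.s = g.s) : f = g := by
  have hr : f.rk = g.rk := by
    rcases lt_trichotomy f.rk g.rk with h1 | h1 | h1
    · exact absurd (by rw [← h]; exact f.hge _ le_rfl) (g.hlt _ h1)
    · exact h1
    · exact absurd (by rw [h]; exact g.hge _ le_rfl) (f.hlt _ h1)
  cases f
  cases g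
  simp only at h hr
  subst h
  subst hr
  rfl

variable [WellFoundedLT W]

noncomputable instance : LinearOrder (Sg W) :=
  LinearOrder.lift' (fun f : Sg W => (toLex f.s : Lex (W → SignType)))
    (fun _ _ h => Sg.ext' (toLex.injective h))

theorem lt_iff {f g : Sg W} : f < g ↔ ∃ i, (∀ j, j < i → f.s j = g.s j) ∧ f.s i < g.s i :=
  Iff.rfl

/-- The initial segment of a sequence, with zeros after it. -/
noncomputable def cut (s : W → SignType) (α : W) (h : ∀ j, j < α → s j ≠ 0) : Sg W where
  s := fun j => by classical exact if j < α then s j else 0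
  rk := α
  hlt := by
    intro v hv
    simp only [hv, if_true]
    exact h v hv
  hge := by
    intro v hv
    simp only [not_lt.mpr hv, if_false]

theorem cut_s {s : W → SignType} {α : W} {h : ∀ j, j < α → s j ≠ 0} {j : W} (hj : j < α) :
    (cut s α h).s j = s j := by
  simp [cut, hj]

theorem cut_s' {s : W → SignType} {α : W} {h : ∀ j, j < α → s j ≠ 0} {j : W} (hj : α ≤ j) :
    (cut s α h).s j = 0 := by
  simp [cut, not_lt.mpr hj]

/-- Two points of the same rank have a point of smaller rank between them. -/
theorem between_rank {f g : Sg W} (h : f < g) (hr : f.rk = g.rk) :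
    ∃ x, f < x ∧ x < g ∧ x.rk < f.rk := by
  obtain ⟨i, hi, hlt⟩ := lt_iff.mp h
  have h1 : i < f.rk := by
    by_contra hc
    rw [f.hge i (not_lt.mp hc), g.hge i (by rw [← hr]; exact not_lt.mp hc)] at hlt
    exact lt_irrefl _ hlt
  have hf : f.s i ≠ 0 := f.hlt i h1
  have hg : g.s i ≠ 0 := g.hlt i (by rw [← hr]; exact h1)
  have hf0 : f.s i < 0 ∧ 0 < g.s i := by
    revert hf hg hlt
    generalize f.s i = a
    generalize g.s i = b
    revert a b
    decide
  have hnz : ∀ j, j < i → f.s j ≠ 0 := fun j hj => f.hlt j (hj.trans h1)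
  refine ⟨cut f.s i hnz, ?_, ?_, h1⟩
  · refine lt_iff.mpr ⟨i, fun j hj => (cut_s hj).symm, ?_⟩
    rw [cut_s' le_rfl]
    exact hf0.1
  · refine lt_iff.mpr ⟨i, fun j hj => ?_, ?_⟩
    · rw [cut_s hj]
      exact hi j hj
    · rw [cut_s' le_rfl]
      exact hf0.2

section Fill

variable (A B : Set (Sg W))

/-- The zero extension of a function on an initial segment. -/
noncomputable def zext (α : W) (ih : ∀ j, j < α → SignType) : Lex (W → SignType) := by
  classical
  exact toLex fun j => if h : j < α then ih j h else 0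

/-- The branch followed when looking for a point between `A` and `B`. -/
noncomputable def br : W → SignType :=
  (wellFounded_lt (α := W)).fix fun α ih => by
    classical
    exact if ∃ a ∈ A, zext α ih ≤ toLex a.s then 1
      else if ∃ b ∈ B, toLex b.s ≤ zext α ih then -1 else 0

theorem br_eq (α : W) : br A B α = (by
    classical
    exact if ∃ a ∈ A, zext α (fun j _ => br A B j) ≤ toLex a.s then 1
      else if ∃ b ∈ B, toLex b.s ≤ zext α (fun j _ => br A B j) then -1 else 0) := by
  unfold br
  rw [WellFounded.fix_eq]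

theorem zext_cut {s : W → SignType} {α : W} (h : ∀ j, j < α → s j ≠ 0) :
    zext α (fun j _ => s j) = toLex (cut s α h).s := by
  unfold zext cut
  congr 1

theorem le_def {f g : Sg W} : f ≤ g ↔ (toLex f.s : Lex (W → SignType)) ≤ toLex g.s := Iff.rfl

variable {A B}

theorem first_diff {a : Sg W} {s : W → SignType} {α : W} (h : ∀ j, j < α → s j ≠ 0)
    (ha : a.rk < α) : ∃ j, j ≤ a.rk ∧ (∀ i, i < j → a.s i = s i) ∧ a.s j ≠ s j := by
  have hex : ∃ j, a.s j ≠ s j := ⟨a.rk, by rw [a.hge _ le_rfl]; exact (h _ ha).symm⟩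
  refine ⟨(wellFounded_lt (α := W)).min {j | a.s j ≠ s j} hex, ?_, ?_, ?_⟩
  · refine WellFounded.min_le _ ?_
    change a.s a.rk ≠ s a.rk
    rw [a.hge _ le_rfl]
    exact (h _ ha).symm
  · intro i hi
    by_contra hc
    exact (wellFounded_lt (α := W)).not_lt_min {j | a.s j ≠ s j} hc hi
  · exact (wellFounded_lt (α := W)).min_mem {j | a.s j ≠ s j} hex

theorem above {α : W} (h : ∀ j, j < α → br A B j ≠ 0) {a : Sg W} (ha : a ∈ A)
    (har : a.rk < α) : a < cut (br A B) α h := by
  obtain ⟨j, hj, hpre, hne⟩ := first_diff h har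
  have hjα : j < α := hj.trans_lt har
  have hj0 : ∀ i, i < j → br A B i ≠ 0 := fun i hi => h i (hi.trans hjα)
  have key : a.s j < br A B j := by
    by_cases hs : 0 ≤ a.s j
    · have h1 : cut (br A B) j hj0 ≤ a := by
        rcases hs.lt_or_eq with h2 | h2
        · refine le_of_lt (lt_iff.mpr ⟨j, fun i hi => ?_, ?_⟩)
          · rw [cut_s hi]
            exact (hpre i hi).symm
          · rw [cut_s' le_rfl]
            exact h2
        · have h3 : a.rk ≤ j := by
            by_contra hc
            exact a.hlt j (not_le.mp hc) h2.symm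
          refine le_of_eq (Sg.ext' (funext fun i => ?_))
          by_cases hi : i < j
          · rw [cut_s hi]
            exact (hpre i hi).symm
          · rw [cut_s' (not_lt.mp hi), a.hge i (h3.trans (not_lt.mp hi))]
      have h4 : br A B j = 1 := by
        rw [br_eq]
        rw [if_pos]
        refine ⟨a, ha, ?_⟩
        rw [zext_cut hj0]
        exact h1
      rw [h4]
      rw [h4] at hne
      revert hne
      generalize a.s j = c
      revert c
      decide
    · have h5 := h j hjα
      revert hs hne h5
      generalize a.s j = c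
      generalize br A B j = d
      revert c d
      decide
  refine lt_iff.mpr ⟨j, fun i hi => ?_, ?_⟩
  · rw [cut_s (hi.trans hjα)]
    exact hpre i hi
  · rw [cut_s hjα]
    exact key

theorem below (hAB : ∀ a ∈ A, ∀ b ∈ B, a < b) {α : W} (h : ∀ j, j < α → br A B j ≠ 0) {b : Sg W}
    (hb : b ∈ B) (hbr : b.rk < α) : cut (br A B) α h < b := by
  obtain ⟨j, hj, hpre, hne⟩ := first_diff h hbr
  have hjα : j < α := hj.trans_lt hbr
  have hj0 : ∀ i, i < j → br A B i ≠ 0 := fun i hi => h i (hi.trans hjα)
  have key : br A B j < b.s j := by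
    by_cases hs : b.s j ≤ 0
    · have h1 : b ≤ cut (br A B) j hj0 := by
        rcases hs.lt_or_eq with h2 | h2
        · refine le_of_lt (lt_iff.mpr ⟨j, fun i hi => ?_, ?_⟩)
          · rw [cut_s hi]
            exact hpre i hi
          · rw [cut_s' le_rfl]
            exact h2
        · have h3 : b.rk ≤ j := by
            by_contra hc
            exact b.hlt j (not_le.mp hc) h2
          refine le_of_eq (Sg.ext' (funext fun i => ?_))
          by_cases hi : i < j
          · rw [cut_s hi]
            exact hpre i hi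
          · rw [cut_s' (not_lt.mp hi), b.hge i (h3.trans (not_lt.mp hi))]
      have h4 : br A B j = -1 := by
        rw [br_eq]
        rw [if_neg, if_pos]
        · refine ⟨b, hb, ?_⟩
          rw [zext_cut hj0]
          exact h1
        · rintro ⟨a, ha, hle⟩
          rw [zext_cut hj0] at hle
          exact absurd (lt_of_lt_of_le (hAB a ha b hb) h1) (not_lt.mpr hle)
      rw [h4]
      rw [h4] at hne
      revert hne
      generalize b.s j = c
      revert c
      decide
    · have h5 := h j hjα
      revert hs hne h5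
      generalize b.s j = c
      generalize br A B j = d
      revert c d
      decide
  refine lt_iff.mpr ⟨j, fun i hi => ?_, ?_⟩
  · rw [cut_s (hi.trans hjα)]
    exact (hpre i hi).symm
  · rw [cut_s hjα]
    exact key

theorem fill_bdd (hAB : ∀ a ∈ A, ∀ b ∈ B, a < b) {w : W} (hA : ∀ a ∈ A, a.rk < w)
    (hB : ∀ b ∈ B, b.rk < w) : ∃ x : Sg W, (∀ a ∈ A, a < x) ∧ ∀ b ∈ B, x < b := by
  have hex : ∃ α, br A B α = 0 := by
    by_contra hc
    push Not at hc
    have h := fun j (_ : j < w) => hc j
    refine hc w ?_
    rw [br_eq, if_neg, if_neg]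
    · rintro ⟨b, hb, hle⟩
      rw [zext_cut h] at hle
      exact absurd (below hAB h hb (hB b hb)) (not_lt.mpr hle)
    · rintro ⟨a, ha, hle⟩
      rw [zext_cut h] at hle
      exact absurd (above h ha (hA a ha)) (not_lt.mpr hle)
  have hm := (wellFounded_lt (α := W)).min_mem {α | br A B α = 0} hex
  have hm' : ∀ j, j < (wellFounded_lt (α := W)).min {α | br A B α = 0} hex → br A B j ≠ 0 := by
    intro j hj hc
    exact (wellFounded_lt (α := W)).not_lt_min {α | br A B α = 0} hc hj
  generalize (wellFounded_lt (α := W)).min {α | br A B α = 0} hex = α at hm hm'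
  have hm2 : br A B α = 0 := hm
  rw [br_eq] at hm2
  refine ⟨cut (br A B) α hm', ?_, ?_⟩
  · intro a ha
    by_contra hc
    rw [if_pos ⟨a, ha, by rw [zext_cut hm']; exact not_lt.mp hc⟩] at hm2
    exact absurd hm2 (by decide)
  · intro b hb
    by_contra hc
    by_cases hA' : ∃ a ∈ A, zext α (fun j _ => br A B j) ≤ toLex a.s
    · rw [if_pos hA'] at hm2
      exact absurd hm2 (by decide)
    · rw [if_neg hA', if_pos ⟨b, hb, by rw [zext_cut hm']; exact not_lt.mp hc⟩] at hm2
      exact absurd hm2 (by decide)

end Fill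

/-- The order for a regular cardinal. -/
theorem exists_order (κ : Cardinal.{0}) (hκ : κ.IsRegular) :
    ∃ (L W : Type) (_ : LinearOrder L) (_ : LinearOrder W) (_ : WellFoundedLT W) (ρ : L → W),
      (∀ w : W, #(Iio w) < κ) ∧
      (∀ A B : Set L, #A < κ → #B < κ → (∀ a ∈ A, ∀ b ∈ B, a < b) →
        ∃ x : L, (∀ a ∈ A, a < x) ∧ ∀ b ∈ B, x < b) ∧
      (∀ x y : L, x < y → ρ x = ρ y → ∃ z, x < z ∧ z < y ∧ ρ z < ρ x) ∧
      #L ≤ 2 ^ κ := by
  refine ⟨Sg κ.ord.ToType, κ.ord.ToType, inferInstance, inferInstance, inferInstance, Sg.rk,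
    ?_, ?_, ?_, ?_⟩
  · intro w
    simpa using mk_Iio_lt w
  · intro A B hA hB hAB
    have hbd : ∀ S : Set κ.ord.ToType, #S < κ → ∃ w, ∀ v ∈ S, v < w := by
      intro S hS
      have h1 : κ ≤ Order.cof κ.ord.ToType := by
        rw [Ordinal.cof_toType, hκ.cof_ord]
      have h2 : ¬ IsCofinal S := fun hc => absurd (h1.trans (Order.cof_le hc)) (not_le.mpr hS)
      simp only [IsCofinal, not_forall, not_exists, not_and, not_le] at h2
      exact h2
    have hS : #((Sg.rk '' A ∪ Sg.rk '' B : Set κ.ord.ToType)) < κ := by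
      refine (mk_union_le _ _).trans_lt (add_lt_of_lt hκ.aleph0_le ?_ ?_)
      · exact mk_image_le.trans_lt hA
      · exact mk_image_le.trans_lt hB
    obtain ⟨w, hw⟩ := hbd _ hS
    exact fill_bdd hAB (w := w) (fun a ha => hw _ (Or.inl ⟨a, ha, rfl⟩))
      (fun b hb => hw _ (Or.inr ⟨b, hb, rfl⟩))
  · intro x y h hr
    exact between_rank h hr
  · have h1 : #(Sg κ.ord.ToType) ≤ #(κ.ord.ToType → SignType) :=
      mk_le_of_injective (f := Sg.s) (fun _ _ h => Sg.ext' h)
    refine h1.trans ?_
    rw [← power_def, mk_toType, card_ord]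
    have h3 : #SignType ≤ 2 ^ κ := by
      have h4 : #SignType < ℵ₀ := lt_aleph0_of_finite _
      exact h4.le.trans (hκ.aleph0_le.trans (cantor κ).le)
    calc #SignType ^ κ ≤ (2 ^ κ) ^ κ := power_le_power_right h3
      _ = 2 ^ κ := by rw [← power_mul, mul_eq_self hκ.aleph0_le]

end Pool.Agent.R795.ML
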