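import Pool.Agent.R795.ML.Color
import Pool.Agent.R795.ML.Order

/-!
# The half graph of a linear order with rays attached
-/

set_option autoImplicit false
set_option linter.unusedSectionVars false

open Cardinal Set

namespace Pool.Agent.R795.ML

/-- The vertices: a root and two rays for each point of the order. -/
inductive Vt (L : Type) : Type
  | root : Vt L
  | node (s : Bool) (x : L) (n : ℕ) : Vt L

open Vt

variable {L : Type} [LinearOrder L]

/-- Adjacency. -/
def AdjV : Vt L → Vt L → Prop
  | root, root => False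
  | root, node s _ n => s = false ∧ n = 0
  | node s _ n, root => s = false ∧ n = 0
  | node s x n, node s' x' n' => (s = s' ∧ x = x' ∧ (n' = n + 1 ∨ n = n' + 1)) ∨
      (n = 0 ∧ n' = 0 ∧ ((s = false ∧ s' = true ∧ x ≤ x') ∨ (s = true ∧ s' = false ∧ x' ≤ x)))

theorem adjV_symm : ∀ u v : Vt L, AdjV u v → AdjV v u
  | root, root, h => h
  | root, node _ _ _, h => h
  | node _ _ _, root, h => h
  | node s x n, node s' x' n', h => by
    rcases h with ⟨h1, h2, h3⟩ | ⟨h1, h2, h3⟩
    · exact Or.inl ⟨h1.symm, h2.symm, h3.symm⟩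
    · refine Or.inr ⟨h2, h1, ?_⟩
      rcases h3 with ⟨h4, h5, h6⟩ | ⟨h4, h5, h6⟩
      · exact Or.inr ⟨h5, h4, h6⟩
      · exact Or.inl ⟨h5, h4, h6⟩

theorem adjV_irrefl : ∀ u : Vt L, ¬ AdjV u u
  | root => fun h => h
  | node s x n => by
    rintro (⟨_, _, h⟩ | ⟨_, _, ⟨h4, h5, _⟩ | ⟨h4, h5, _⟩⟩)
    · omega
    · rw [h4] at h5
      exact absurd h5 (by decide)
    · rw [h4] at h5
      exact absurd h5 (by decide)

/-- The graph. -/
def Gr (L : Type) [LinearOrder L] : SimpleGraph (Vt L) where
  Adj := AdjV
  symm := ⟨fun u v h => adjV_symm u v h⟩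
  loopless := ⟨fun u h => adjV_irrefl u h⟩

theorem adj_def (u v : Vt L) : (Gr L).Adj u v ↔ AdjV u v := Iff.rfl

theorem adj_ray (s : Bool) (x : L) (n : ℕ) : (Gr L).Adj (node s x n) (node s x (n + 1)) :=
  Or.inl ⟨rfl, rfl, Or.inl rfl⟩

theorem adj_root {v : Vt L} : (Gr L).Adj root v ↔ ∃ x, v = node false x 0 := by
  rw [adj_def]
  constructor
  · intro h
    cases v with
    | root => exact absurd h (fun h => h)
    | node s x n =>
      obtain ⟨h1, h2⟩ := h
      exact ⟨x, by rw [h1, h2]⟩
  · rintro ⟨x, rfl⟩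
    exact ⟨rfl, rfl⟩

theorem adj_succ {s : Bool} {x : L} {n : ℕ} {v : Vt L} :
    (Gr L).Adj (node s x (n + 1)) v ↔ v = node s x n ∨ v = node s x (n + 2) := by
  rw [adj_def]
  constructor
  · intro h
    cases v with
    | root => exact absurd h.2 (by omega)
    | node s' x' n' =>
      rcases h with ⟨h1, h2, h3⟩ | ⟨h1, _⟩
      · subst h1
        subst h2
        rcases h3 with h3 | h3
        · exact Or.inr (by rw [h3])
        · exact Or.inl (by rw [show n = n' by omega])
      · omega
  · rintro (rfl | rfl)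
    · exact Or.inl ⟨rfl, rfl, Or.inr rfl⟩
    · exact Or.inl ⟨rfl, rfl, Or.inl rfl⟩

theorem adj_ab {x y : L} : (Gr L).Adj (node false x 0) (node true y 0) ↔ x ≤ y := by
  rw [adj_def]
  constructor
  · rintro (⟨h, _⟩ | ⟨_, _, ⟨_, _, h⟩ | ⟨h, _⟩⟩)
    · exact absurd h (by decide)
    · exact h
    · exact absurd h (by decide)
  · intro h
    exact Or.inr ⟨rfl, rfl, Or.inl ⟨rfl, rfl, h⟩⟩

theorem reach_root (v : Vt L) : (Gr L).Reachable v root := by
  have ha : ∀ x : L, (Gr L).Reachable (node false x 0) root := fun x =>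
    (adj_root.mpr ⟨x, rfl⟩).symm.reachable
  cases v with
  | root => exact SimpleGraph.Reachable.refl _
  | node s x n =>
    induction n with
    | zero =>
      cases s with
      | false => exact ha x
      | true => exact ((adj_ab.mpr (le_refl x)).symm.reachable).trans (ha x)
    | succ n ih => exact ((adj_ray s x n).symm.reachable).trans ih

theorem connected : (Gr L).Connected :=
  { preconnected := fun u v => (reach_root u).trans (reach_root v).symm
    nonempty := ⟨root⟩ }

theorem walk_through {s : Bool} {x : L} {n : ℕ} {v u : Vt L} (p : (Gr L).Walk v u) (hu : u = root)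
    (hv : ∃ k, n < k ∧ v = node s x k) : node s x n ∈ p.support := by
  induction p with
  | nil =>
    obtain ⟨k, _, h⟩ := hv
    rw [h] at hu
    exact absurd hu (by simp)
  | cons h p ih =>
    obtain ⟨k, hk, rfl⟩ := hv
    obtain ⟨m, rfl⟩ : ∃ m, k = m + 1 := ⟨k - 1, by omega⟩
    rw [SimpleGraph.Walk.support_cons]
    refine List.mem_cons_of_mem _ ?_
    rcases adj_succ.mp h with h1 | h1
    · rcases Nat.lt_or_ge n m with h2 | h2
      · exact ih hu ⟨m, h2, h1⟩
      · have h3 : m = n := by omega
        subst h3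
        rw [← h1]
        exact p.start_mem_support
    · exact ih hu ⟨m + 2, by omega, h1⟩

section Autos

variable {κ : Cardinal.{0}} (hκ : ℵ₀ < κ) (hfill : Fills L κ)

include hκ hfill in
theorem mk_Ioo_ge {x y : L} (h : x < y) : κ ≤ #(Ioo x y) := by
  by_contra hc
  have hc' := not_le.mp hc
  obtain ⟨z, hz1, hz2⟩ := hfill (insert x (Ioo x y)) {y}
    ((mk_insert_le).trans_lt (add_lt_of_lt hκ.le hc' (one_lt_aleph0.trans hκ)))
    (by rw [mk_singleton]; exact one_lt_aleph0.trans hκ) (by
      rintro a (rfl | ha) b rfl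
      · exact h
      · exact ha.2)
  exact lt_irrefl z (hz1 z (mem_insert_of_mem _ ⟨hz1 x (mem_insert _ _), hz2 y rfl⟩))

include hκ hfill in
theorem infinite_Ici (x : L) : (Ici x).Infinite ∧ (Iic x).Infinite := by
  have h0 : ∀ A : Set L, A = ∅ → #A < κ := fun A hA => by
    rw [hA]
    simpa using aleph0_pos.trans hκ
  have h1 : #({x} : Set L) < κ := by
    rw [mk_singleton]
    exact one_lt_aleph0.trans hκ
  obtain ⟨y, hy, _⟩ := hfill {x} ∅ h1 (h0 _ rfl) (by simp)
  obtain ⟨z, _, hz⟩ := hfill ∅ {x} (h0 _ rfl) h1 (by simp)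
  have hI : ∀ u v : L, u < v → (Ioo u v).Infinite := by
    intro u v huv hf
    have := mk_Ioo_ge hκ hfill huv
    exact absurd ((lt_aleph0_iff_set_finite.mpr hf).trans hκ) (not_lt.mpr this)
  refine ⟨(hI x y (hy x rfl)).mono fun w hw => hw.1.le, (hI z x (hz x rfl)).mono fun w hw => hw.2.le⟩

/-- Infinite degree. -/
def Inf (v : Vt L) : Prop := ((Gr L).neighborSet v).Infinite

theorem inf_map (φ : Gr L ≃g Gr L) (v : Vt L) : Inf (φ v) ↔ Inf v := by
  have h : (Gr L).neighborSet (φ v) = φ '' (Gr L).neighborSet v := by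
    ext u
    constructor
    · intro hu
      refine ⟨φ.symm u, ?_, by simp⟩
      have h1 : (Gr L).Adj (φ v) (φ (φ.symm u)) := by
        rw [RelIso.apply_symm_apply]
        exact hu
      exact φ.map_rel_iff.mp h1
    · rintro ⟨w, hw, rfl⟩
      exact φ.map_rel_iff.mpr hw
  unfold Inf
  rw [h]
  constructor
  · intro h1 h2
    exact h1 (h2.image _)
  · intro h1
    exact h1.image φ.injective.injOn

theorem not_inf_succ (s : Bool) (x : L) (n : ℕ) : ¬ Inf (node s x (n + 1)) := by
  intro h
  refine h (Set.Finite.subset (Set.toFinite {node s x n, node s x (n + 2)}) ?_)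
  intro v hv
  exact adj_succ.mp hv

include hκ hfill in
theorem inf_zero (s : Bool) (x : L) : Inf (node s x 0) := by
  cases s with
  | false =>
    refine ((infinite_Ici hκ hfill x).1.image (f := fun y => node true y 0) ?_).mono ?_
    · intro a _ b _ hab
      simpa using hab
    · rintro _ ⟨y, hy, rfl⟩
      exact adj_ab.mpr hy
  | true =>
    refine ((infinite_Ici hκ hfill x).2.image (f := fun y => node false y 0) ?_).mono ?_
    · intro a _ b _ hab
      simpa using hab
    · rintro _ ⟨y, hy, rfl⟩
      exact (adj_ab.mpr hy).symm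

include hκ hfill in
theorem inf_root : Inf (root : Vt L) := by
  obtain ⟨x, _, _⟩ := hfill ∅ ∅ (by simpa using aleph0_pos.trans hκ)
    (by simpa using aleph0_pos.trans hκ) (by simp)
  refine ((infinite_Ici hκ hfill x).1.image (f := fun y => node false y 0) ?_).mono ?_
  · intro a _ b _ hab
    simpa using hab
  · rintro _ ⟨y, hy, rfl⟩
    exact adj_root.mpr ⟨y, rfl⟩

include hκ hfill in
theorem map_root (φ : Gr L ≃g Gr L) : φ root = root := by
  have h1 : Inf (φ root) := (inf_map φ root).mpr (inf_root hκ hfill)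
  have h2 : ∀ u, (Gr L).Adj (φ root) u → Inf u := by
    intro u hu
    have h3 : (Gr L).Adj (φ root) (φ (φ.symm u)) := by
      rw [RelIso.apply_symm_apply]
      exact hu
    obtain ⟨x, hx⟩ := adj_root.mp (φ.map_rel_iff.mp h3)
    have h4 : u = φ (node false x 0) := by
      rw [← hx, RelIso.apply_symm_apply]
    rw [h4, inf_map]
    exact inf_zero hκ hfill _ _
  generalize φ root = r at h1 h2
  cases r with
  | root => rfl
  | node s x n =>
    cases n with
    | zero => exact absurd (h2 _ (adj_ray s x 0)) (not_inf_succ _ _ _)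
    | succ n => exact absurd h1 (not_inf_succ _ _ _)

include hκ hfill in
theorem map_a (φ : Gr L ≃g Gr L) (x : L) : ∃ y, φ (node false x 0) = node false y 0 := by
  have h1 : (Gr L).Adj (φ root) (φ (node false x 0)) := φ.map_rel_iff.mpr (adj_root.mpr ⟨x, rfl⟩)
  rw [map_root hκ hfill] at h1
  exact adj_root.mp h1

include hκ hfill in
theorem map_b (φ : Gr L ≃g Gr L) (x : L) : ∃ y, φ (node true x 0) = node true y 0 := by
  have h1 : Inf (φ (node true x 0)) := (inf_map φ _).mpr (inf_zero hκ hfill _ _)
  have h2 : ¬ (Gr L).Adj root (φ (node true x 0)) := by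
    intro h
    rw [← map_root hκ hfill φ] at h
    obtain ⟨y, hy⟩ := adj_root.mp (φ.map_rel_iff.mp h)
    simp at hy
  have h3 : φ (node true x 0) ≠ root := by
    intro h
    rw [← map_root hκ hfill φ] at h
    have := φ.injective h
    simp at this
  generalize φ (node true x 0) = r at h1 h2 h3
  cases r with
  | root => exact absurd rfl h3
  | node s y n =>
    cases n with
    | succ n => exact absurd h1 (not_inf_succ _ _ _)
    | zero =>
      cases s with
      | false => exact absurd (adj_root.mpr ⟨y, rfl⟩) h2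
      | true => exact ⟨y, rfl⟩

include hκ hfill in
/-- Every automorphism comes from an automorphism of the order. -/
theorem map_struct (φ : Gr L ≃g Gr L) : ∃ σ : L → L, StrictMono σ ∧
    ∀ s x n, φ (node s x n) = node s (σ x) n := by
  choose σ hσ using map_a hκ hfill φ
  choose τ hτ using map_b hκ hfill φ
  have hσs : Function.Surjective σ := by
    intro y
    obtain ⟨x, hx⟩ := map_a hκ hfill φ.symm y
    refine ⟨x, ?_⟩
    have h1 : φ (node false x 0) = node false y 0 := by
      rw [← hx, RelIso.apply_symm_apply]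
    rw [hσ] at h1
    simpa using h1
  have hτs : Function.Surjective τ := by
    intro y
    obtain ⟨x, hx⟩ := map_b hκ hfill φ.symm y
    refine ⟨x, ?_⟩
    have h1 : φ (node true x 0) = node true y 0 := by
      rw [← hx, RelIso.apply_symm_apply]
    rw [hτ] at h1
    simpa using h1
  have hst : ∀ x y, σ x ≤ τ y ↔ x ≤ y := by
    intro x y
    rw [← adj_ab, ← adj_ab, ← hσ, ← hτ]
    exact φ.map_rel_iff
  have hσσ : ∀ x y, σ x ≤ σ y ↔ x ≤ y := by
    intro x y
    constructor
    · intro h
      rw [← hst x y]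
      exact h.trans ((hst y y).mpr le_rfl)
    · intro h
      obtain ⟨z, hz⟩ := hτs (σ y)
      have h1 : y ≤ z := (hst y z).mp (by rw [hz])
      rw [← hz]
      exact (hst x z).mpr (h.trans h1)
  have hm : StrictMono σ := strictMono_of_le_iff_le (fun x y => (hσσ x y).symm)
  have hτσ : ∀ y, τ y = σ y := by
    intro y
    refine le_antisymm ?_ ((hst y y).mpr le_rfl)
    obtain ⟨z, hz⟩ := hσs (τ y)
    rw [← hz]
    exact (hσσ z y).mpr ((hst z y).mp (by rw [hz]))
  have h0 : ∀ s x, φ (node s x 0) = node s (σ x) 0 := by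
    intro s x
    cases s with
    | false => exact hσ x
    | true => rw [hτ, hτσ]
  have h1 : ∀ s x, φ (node s x 1) = node s (σ x) 1 := by
    intro s x
    have h2 : (Gr L).Adj (φ (node s x 0)) (φ (node s x 1)) := φ.map_rel_iff.mpr (adj_ray s x 0)
    rw [h0] at h2
    have h3 : ¬ Inf (φ (node s x 1)) := by
      rw [inf_map]
      exact not_inf_succ _ _ _
    generalize φ (node s x 1) = r at h2 h3
    cases r with
    | root => exact absurd (inf_root hκ hfill) h3
    | node s' y n =>
      cases n with
      | zero => exact absurd (inf_zero hκ hfill _ _) h3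
      | succ n =>
        rcases (adj_def _ _).mp h2 with ⟨h4, h5, h6⟩ | ⟨_, h4, _⟩
        · subst h4
          subst h5
          have h7 : n = 0 := by omega
          rw [h7]
        · omega
  have h2 : ∀ s x n, φ (node s x n) = node s (σ x) n ∧
      φ (node s x (n + 1)) = node s (σ x) (n + 1) := by
    intro s x n
    induction n with
    | zero => exact ⟨h0 s x, h1 s x⟩
    | succ n ih =>
      refine ⟨ih.2, ?_⟩
      have h3 : (Gr L).Adj (φ (node s x (n + 1))) (φ (node s x (n + 2))) :=
        φ.map_rel_iff.mpr (adj_ray s x (n + 1))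
      rw [ih.2] at h3
      rcases adj_succ.mp h3 with h4 | h4
      · rw [← ih.1] at h4
        have h5 := φ.injective h4
        simp at h5
      · exact h4
  exact ⟨σ, hm, fun s x n => (h2 s x n).1⟩

include hκ hfill in
theorem moved_ge (φ : Gr L ≃g Gr L) (hφ : φ ≠ RelIso.refl _) : κ ≤ #{v | φ v ≠ v} := by
  obtain ⟨σ, hm, hσ⟩ := map_struct hκ hfill φ
  have hx : ∃ x, σ x ≠ x := by
    by_contra hc
    push Not at hc
    refine hφ (RelIso.ext fun v => ?_)
    cases v with
    | root => exact map_root hκ hfill φ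
    | node s x n =>
      rw [hσ, hc]
      rfl
  obtain ⟨x, hx⟩ := hx
  obtain ⟨a, b, hab, hmv⟩ : ∃ a b, a < b ∧ ∀ y ∈ Ioo a b, σ y ≠ y := by
    rcases lt_or_gt_of_ne hx with h | h
    · exact ⟨σ x, x, h, fun y hy => ((hm hy.2).trans hy.1).ne⟩
    · exact ⟨x, σ x, h, fun y hy => (hy.2.trans (hm hy.1)).ne'⟩
  refine (mk_Ioo_ge hκ hfill hab).trans ?_
  refine mk_le_of_injective (f := fun y : Ioo a b =>
    (⟨node false y.1 0, ?_⟩ : {v | φ v ≠ v})) ?_
  · intro h
    rw [hσ] at h
    simp only [node.injEq, true_and, and_true] at h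
    exact hmv y.1 y.2 h
  · intro y z hyz
    simp only [Subtype.mk.injEq, node.injEq, true_and, and_true] at hyz
    exact Subtype.ext hyz

/-- The automorphism of the graph given by an automorphism of the order. -/
def lift (g : L ≃o L) : Gr L ≃g Gr L where
  toFun
    | root => root
    | node s x n => node s (g x) n
  invFun
    | root => root
    | node s x n => node s (g.symm x) n
  left_inv := by
    intro v
    cases v <;> simp
  right_inv := by
    intro v
    cases v <;> simp
  map_rel_iff' := by
    intro u v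
    cases u <;> cases v <;> simp [adj_def, AdjV]

theorem lift_node (g : L ≃o L) (s : Bool) (x : L) (n : ℕ) :
    lift g (node s x n) = node s (g x) n := rfl

end Autos

end Pool.Agent.R795.ML
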